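import Pool.Agent.H.MP_7ad892_an.A

namespace Pool.Agent.H.MP_4840d7_an

open Set Filter Topology MeasureTheory

/-- A concrete correspondence inside a unital C*-algebra, with a gauge action. -/
structure Sys (B : Type*) [CStarAlgebra B] where
  A : StarSubalgebra ℂ B
  hA : IsClosed (A : Set B)
  X : Submodule ℂ B
  hX : IsClosed (X : Set B)
  AX : ∀ a ∈ A, ∀ x ∈ X, a * x ∈ X
  XA : ∀ x ∈ X, ∀ a ∈ A, x * a ∈ X
  XX : ∀ x ∈ X, ∀ y ∈ X, star x * y ∈ A
  γ : AddCircle (1 : ℝ) → B →⋆ₐ[ℂ] B
  γA : ∀ θ, ∀ a ∈ A, γ θ a = a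
  γX : ∀ θ, ∀ x ∈ X, γ θ x = fourier 1 θ • x

namespace Sys

variable {B : Type*} [CStarAlgebra B] (s : Sys B)

/-- Homogeneous elements. -/
inductive Hm : ℕ → B → Prop
  | base {a} : a ∈ s.A → Hm 0 a
  | tm {n a x} : x ∈ s.X → Hm n a → Hm (n + 1) (x * a)
  | add {n a b} : Hm n a → Hm n b → Hm n (a + b)
  | smul {n a} (r : ℂ) : Hm n a → Hm n (r • a)

variable {s}

lemma Hm.amul {m b} (h : s.Hm m b) : ∀ a ∈ s.A, s.Hm m (a * b) := by
  induction h with
  | base hb => exact fun a ha => .base (mul_mem ha hb)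
  | tm hx h _ => exact fun a ha => by rw [← mul_assoc]; exact .tm (s.AX a ha _ hx) h
  | add _ _ i1 i2 => exact fun a ha => by rw [mul_add]; exact (i1 a ha).add (i2 a ha)
  | smul r _ i => exact fun a ha => by rw [mul_smul_comm]; exact (i a ha).smul r

lemma Hm.mul {n a m b} (h : s.Hm n a) (h' : s.Hm m b) : s.Hm (m + n) (a * b) := by
  induction h with
  | base ha => exact h'.amul _ ha
  | tm hx _ ih => rw [mul_assoc]; exact .tm hx ih
  | add _ _ i1 i2 => rw [add_mul]; exact i1.add i2
  | smul r _ i => rw [smul_mul_assoc]; exact i.smul r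

lemma Hm.zero_mem {n a} (h : s.Hm n a) : n = 0 → a ∈ s.A := by
  induction h with
  | base ha => exact fun _ => ha
  | tm => intro h; omega
  | add _ _ i1 i2 => exact fun h => add_mem (i1 h) (i2 h)
  | smul r _ i => exact fun h => SMulMemClass.smul_mem r (i h)

lemma Hm.inner (n : ℕ) : ∀ {a b}, s.Hm n a → s.Hm n b → star a * b ∈ s.A := by
  induction n with
  | zero => exact fun h h' => mul_mem (star_mem (h.zero_mem rfl)) (h'.zero_mem rfl)
  | succ n ih =>
    have k1 : ∀ {a x}, x ∈ s.X → s.Hm n a → ∀ {m b}, s.Hm m b → m = n + 1 →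
        star (x * a) * b ∈ s.A := by
      intro a x hx h m b h'
      induction h' with
      | base => intro h; omega
      | @tm m b y hy h' _ =>
        intro hm
        obtain rfl : m = n := by omega
        rw [star_mul, mul_assoc, ← mul_assoc (star x)]
        exact ih h (h'.amul _ (s.XX x hx y hy))
      | add _ _ i1 i2 => intro hm; rw [mul_add]; exact add_mem (i1 hm) (i2 hm)
      | smul r _ i => intro hm; rw [mul_smul_comm]; exact SMulMemClass.smul_mem r (i hm)
    have k2 : ∀ {m a}, s.Hm m a → m = n + 1 → ∀ {b}, s.Hm (n + 1) b → star a * b ∈ s.A := by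
      intro m a h
      induction h with
      | base => intro h; omega
      | @tm m a x hx h _ =>
        intro hm b h'
        obtain rfl : m = n := by omega
        exact k1 hx h h' rfl
      | add _ _ i1 i2 => intro hm b h'; rw [star_add, add_mul]; exact add_mem (i1 hm h') (i2 hm h')
      | smul r _ i =>
        intro hm b h'
        rw [star_smul, smul_mul_assoc]; exact SMulMemClass.smul_mem _ (i hm h')
    intro a b h h'
    exact k2 h rfl h'

lemma Hm.gauge {n a} (h : s.Hm n a) (θ) : s.γ θ a = fourier n θ • a := by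
  induction h with
  | base ha => simp [s.γA θ _ ha]
  | tm hx _ ih =>
    rw [map_mul, ih, s.γX θ _ hx, smul_mul_smul_comm, Nat.cast_succ, fourier_add, mul_comm]
  | add _ _ i1 i2 => rw [map_add, i1, i2, smul_add]
  | smul r _ i => rw [map_smul, i, smul_comm]

lemma Hm.one {x} (hx : x ∈ s.X) : s.Hm 1 x := by simpa using Hm.tm hx (.base (one_mem s.A))

variable (s)

/-- The unital tensor algebra. -/
noncomputable def T : Submodule ℂ B := (Submodule.span ℂ {a | ∃ n, s.Hm n a}).topologicalClosure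

lemma T_closed : IsClosed (s.T : Set B) := isClosed_closure

variable {s}

lemma Hm.mem {n a} (h : s.Hm n a) : a ∈ s.T := subset_closure (Submodule.subset_span ⟨n, h⟩)

lemma AT {a} (h : a ∈ s.A) : a ∈ s.T := (Hm.base h).mem

lemma XT {a} (h : a ∈ s.X) : a ∈ s.T := (Hm.one h).mem

lemma ind {P : B → Prop} (hc : IsClosed ((s.T : Set B) ∩ {a | P a})) (h0 : P 0)
    (ha : ∀ a ∈ s.T, ∀ b ∈ s.T, P a → P b → P (a + b)) (hs : ∀ (r : ℂ), ∀ a ∈ s.T, P a → P (r • a))
    (hH : ∀ n a, s.Hm n a → P a) {a : B} (h : a ∈ s.T) : P a := by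
  refine (closure_minimal (fun b hb => ?_) hc h).2
  refine Submodule.span_induction (p := fun b _ => b ∈ (s.T : Set B) ∩ {a | P a}) ?_
    ⟨zero_mem _, h0⟩ (fun a b _ _ h1 h2 => ⟨add_mem h1.1 h2.1, ha a h1.1 b h2.1 h1.2 h2.2⟩)
    (fun r a _ h => ⟨Submodule.smul_mem _ r h.1, hs r a h.1 h.2⟩) hb
  rintro x ⟨n, h⟩; exact ⟨h.mem, hH n x h⟩

lemma T_mul {a b} (ha : a ∈ s.T) (hb : b ∈ s.T) : a * b ∈ s.T := by
  refine ind (P := fun a => a * b ∈ s.T)
    (s.T_closed.inter (s.T_closed.preimage (continuous_mul_const b))) (by simp)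
    (fun _ _ _ _ h h' => by rw [add_mul]; exact add_mem h h')
    (fun r _ _ h => by rw [smul_mul_assoc]; exact Submodule.smul_mem _ r h) (fun n a h => ?_) ha
  exact ind (P := fun b => a * b ∈ s.T)
    (s.T_closed.inter (s.T_closed.preimage (continuous_const_mul a))) (by simp)
    (fun _ _ _ _ h h' => by rw [mul_add]; exact add_mem h h')
    (fun r _ _ h => by rw [mul_smul_comm]; exact Submodule.smul_mem _ r h)
    (fun m b h' => (h.mul h').mem) hb

lemma γ_le (θ) (z : B) : ‖s.γ θ z‖ ≤ ‖z‖ := NonUnitalStarAlgHom.norm_apply_le _ _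

/-- Elements on which the gauge action is continuous. -/
def Ct (s : Sys B) (z : B) : Prop := (Continuous fun θ => s.γ θ z) ∧ s.γ 0 z = z

lemma Ct.mul {a b} (h : s.Ct a) (h' : s.Ct b) : s.Ct (a * b) :=
  ⟨by simp only [map_mul]; exact h.1.mul h'.1, by rw [map_mul, h.2, h'.2]⟩

lemma Ct.star {a} (h : s.Ct a) : s.Ct (star a) :=
  ⟨by simp only [map_star]; exact h.1.star, by rw [map_star, h.2]⟩

lemma Ct.add {a b} (h : s.Ct a) (h' : s.Ct b) : s.Ct (a + b) :=
  ⟨by simp only [map_add]; exact h.1.add h'.1, by rw [map_add, h.2, h'.2]⟩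

lemma Ct.smul {a} (r : ℂ) (h : s.Ct a) : s.Ct (r • a) :=
  ⟨by simp only [map_smul]; exact h.1.const_smul r, by rw [map_smul, h.2]⟩

lemma Ct_closed : IsClosed {z | s.Ct z} := by
  refine isClosed_of_closure_subset fun a ha => ⟨?_, ?_⟩
  · refine continuous_of_uniform_approx_of_continuous fun u hu => ?_
    obtain ⟨ε, hε, hu'⟩ := Metric.mem_uniformity_dist.1 hu
    obtain ⟨b, hb1, hb2⟩ := Metric.mem_closure_iff.1 ha ε hε
    refine ⟨_, hb1.1, fun θ => hu' ?_⟩
    rw [dist_eq_norm, ← map_sub] at *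
    exact (γ_le _ _).trans_lt hb2
  · exact closure_minimal (t := {b | s.γ 0 b = b}) (fun b hb => hb.2)
      (isClosed_eq (AddMonoidHomClass.continuous_of_bound (s.γ 0) 1 fun b => by
        simpa using γ_le 0 b) continuous_id) ha

lemma ct {a} (h : a ∈ s.T) : s.Ct a :=
  ind (s.T_closed.inter Ct_closed) ⟨by simpa using continuous_const, by simp⟩
    (fun _ _ _ _ => Ct.add) (fun r _ _ => Ct.smul r)
    (fun n a h => ⟨by simp only [h.gauge]; fun_prop, by simp [h.gauge]⟩) h

/-- The gauge expectation. -/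
noncomputable def E (s : Sys B) (z : B) : B := ∫ θ, s.γ θ z ∂AddCircle.haarAddCircle

lemma Ct.int {a} (h : s.Ct a) : Integrable (fun θ => s.γ θ a) AddCircle.haarAddCircle :=
  h.1.integrable_of_hasCompactSupport (HasCompactSupport.of_compactSpace _)

lemma E_add {a b} (h : s.Ct a) (h' : s.Ct b) : s.E (a + b) = s.E a + s.E b := by
  simp only [E, map_add]; exact integral_add h.int h'.int

lemma E_smul (r : ℂ) (a) : s.E (r • a) = r • s.E a := by
  simp only [E, map_smul]; exact integral_smul r _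

lemma E_sub {a b} (h : s.Ct a) (h' : s.Ct b) : s.E (a - b) = s.E a - s.E b := by
  simp only [E, map_sub]; exact integral_sub h.int h'.int

lemma E_le (a) : ‖s.E a‖ ≤ ‖a‖ := by
  simpa [E] using norm_integral_le_of_norm_le_const (μ := AddCircle.haarAddCircle (T := 1))
    (f := fun θ => s.γ θ a) (Eventually.of_forall fun θ => γ_le θ a)

lemma E_star (a) : s.E (star a) = star (s.E a) := by
  simp only [E, map_star]
  exact (starL' ℝ (A := B)).integral_comp_comm _

lemma E_conj {n x y z} (hx : s.Hm n x) (hy : s.Hm n y) (hz : s.Ct z) :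
    s.E (star x * z * y) = star x * s.E z * y := by
  have := (ContinuousLinearMap.mulLeftRight ℂ B (star x) y).integral_comp_comm hz.int
  simp only [ContinuousLinearMap.mulLeftRight_apply] at this
  rw [E, E, ← this]
  congr 1; ext θ
  rw [map_mul, map_mul, map_star, hx.gauge, hy.gauge, star_smul, smul_mul_assoc,
    smul_mul_smul_comm, Complex.star_def, ← fourier_neg, ← fourier_add]
  simp

lemma E_Hm {n x m y} (hx : s.Hm n x) (hy : s.Hm m y) :
    s.E (star x * y) = if n = m then star x * y else 0 := by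
  have e : ∀ θ, s.γ θ (star x * y) = fourier (m - n : ℤ) θ • (star x * y) := fun θ => by
    rw [map_mul, map_star, hx.gauge, hy.gauge, star_smul, smul_mul_smul_comm, Complex.star_def,
      ← fourier_neg, ← fourier_add, neg_add_eq_sub]
  simp only [E, e, integral_smul_const]
  have := congrFun (fourierCoeff_fourier (T := 1) (m - n : ℤ)) 0
  simp only [fourierCoeff, neg_zero, fourier_zero, one_smul] at this
  rw [this]
  split_ifs with h
  · simp [h]
  · rw [Pi.single_eq_of_ne (by omega), zero_smul]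

lemma E_cont {f : B → B} (hf : Continuous f) (h : ∀ a ∈ s.T, s.Ct (f a)) :
    ContinuousOn (fun a => s.E (f a)) s.T := by
  have : LipschitzOnWith 1 s.E {z | s.Ct z} := LipschitzOnWith.of_dist_le_mul fun a ha b hb => by
    rw [dist_eq_norm, dist_eq_norm, ← E_sub ha hb]; simpa using E_le _
  exact this.continuousOn.comp hf.continuousOn h

lemma E_mem {x y} (hx : x ∈ s.T) (hy : y ∈ s.T) : s.E (star x * y) ∈ s.A := by
  refine ind (P := fun x => s.E (star x * y) ∈ s.A)
    ((E_cont (f := fun x => star x * y) (by fun_prop) fun a ha =>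
      (ct ha).star.mul (ct hy)).preimage_isClosed_of_isClosed s.T_closed s.hA) (by simp [E])
    (fun a ha b hb h h' => by
      rw [star_add, add_mul, E_add ((ct ha).star.mul (ct hy)) ((ct hb).star.mul (ct hy))]
      exact add_mem h h')
    (fun r _ _ h => by rw [star_smul, smul_mul_assoc, E_smul]; exact SMulMemClass.smul_mem _ h)
    (fun n x h => ?_) hx
  have hx := h.mem
  refine ind (P := fun y => s.E (star x * y) ∈ s.A)
    ((E_cont (f := fun y => star x * y) (by fun_prop) fun a ha =>
      (ct hx).star.mul (ct ha)).preimage_isClosed_of_isClosed s.T_closed s.hA) (by simp [E])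
    (fun a ha b hb h h' => by
      rw [mul_add, E_add ((ct hx).star.mul (ct ha)) ((ct hx).star.mul (ct hb))]
      exact add_mem h h')
    (fun r _ _ h => by rw [mul_smul_comm, E_smul]; exact SMulMemClass.smul_mem _ h)
    (fun m y h' => ?_) hy
  rw [E_Hm h h']
  split_ifs with e
  · subst e; exact Hm.inner _ h h'
  · exact zero_mem _

variable [PartialOrder B] [StarOrderedRing B]

lemma E_nonneg {z} (hz : 0 ≤ z) : 0 ≤ s.E z :=
  integral_nonneg fun θ => map_nonneg (s.γ θ) hz

lemma E_faith {z} (hz : 0 ≤ z) (hc : s.Ct z) (h : s.E z = 0) : z = 0 := by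
  refine norm_le_zero_iff.1 (le_of_forall_pos_le_add fun ε hε => ?_)
  set U := {θ | ‖z - s.γ θ z‖ < ε}
  have hU : IsOpen U := isOpen_lt (continuous_const.sub hc.1).norm continuous_const
  have hp : 0 < (AddCircle.haarAddCircle (T := 1)).real U :=
    ENNReal.toReal_pos (hU.measure_ne_zero _ ⟨0, by simp [U, hc.2, hε]⟩) (measure_ne_top _ _)
  have h0 : ∫ θ in U, s.γ θ z ∂AddCircle.haarAddCircle = 0 := le_antisymm
    ((setIntegral_le_integral hc.int (Eventually.of_forall fun θ => map_nonneg (s.γ θ) hz)).trans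
      h.le) (integral_nonneg fun θ => map_nonneg (s.γ θ) hz)
  have h1 := norm_setIntegral_le_of_norm_le_const (μ := AddCircle.haarAddCircle (T := 1)) (s := U)
    (f := fun θ => z - s.γ θ z) (measure_lt_top _ _) (fun θ hθ => le_of_lt hθ)
  rw [integral_sub (integrable_const _) hc.int.integrableOn, h0, sub_zero, setIntegral_const,
    norm_smul, Real.norm_of_nonneg hp.le, mul_comm] at h1
  rw [zero_add]; exact le_of_mul_le_mul_right h1 hp

end Sys

end Pool.Agent.H.MP_4840d7_an
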