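import Pool.Agent.H.MP_4840d7_an.A

namespace Pool.Agent.H.MP_4840d7_an

open Set Filter Topology

lemma scalar {A : Type*} [NormedRing A] [NormedAlgebra ℂ A] [CompleteSpace A] (L : Ideal A)
    [hL : L.IsMaximal] {g : A} (hg : ∀ l ∈ L, l * g ∈ L) : ∃ c : ℂ, g - algebraMap ℂ A c ∈ L := by
  let L' : Submodule ℂ A := L.restrictScalars ℂ
  haveI : IsClosed (L' : Set A) := Ideal.IsMaximal.isClosed (I := L)
  haveI : Nontrivial (A ⧸ L') := Submodule.Quotient.nontrivial_iff.2 fun h =>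
    hL.ne_top (L.eq_top_iff_one.2 (show (1 : A) ∈ L' from h ▸ Submodule.mem_top))
  let T0 : A ⧸ L' →ₗ[ℂ] A ⧸ L' := L'.mapQ L' (LinearMap.mulRight ℂ g) fun l hl => hg l hl
  have hc : Continuous T0 := by
    rw [L'.isOpenQuotientMap_mkQ.isQuotientMap.continuous_iff]
    exact L'.isOpenQuotientMap_mkQ.continuous.comp (continuous_mul_const g)
  let T : A ⧸ L' →L[ℂ] A ⧸ L' := ⟨T0, hc⟩
  obtain ⟨c, hc⟩ := spectrum.nonempty T
  refine ⟨c, by_contra fun hn => hc ?_⟩
  set d := g - algebraMap ℂ A c with hd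
  have hT : ∀ a, (algebraMap ℂ _ c - T) (L'.mkQ a) = L'.mkQ (-(a * d)) := fun a => by
    rw [hd, mul_sub, neg_sub, map_sub, ← Algebra.commutes, ← Algebra.smul_def, map_smul,
      Algebra.algebraMap_eq_smul_one]
    rfl
  have hld : ∀ l ∈ L, l * d ∈ L := fun l hl => by
    rw [hd, mul_sub, ← Algebra.commutes]
    exact L.sub_mem (hg l hl) (L.mul_mem_left _ hl)
  rw [spectrum.mem_resolventSet_iff, ContinuousLinearMap.isUnit_iff_bijective]
  constructor
  · rw [injective_iff_map_eq_zero]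
    intro q hq
    obtain ⟨a, rfl⟩ := L'.mkQ_surjective q
    rw [hT] at hq
    have h1 : a * d ∈ L := neg_mem_iff.1 ((Submodule.Quotient.mk_eq_zero L').1 hq)
    refine (Submodule.Quotient.mk_eq_zero L').2 (by_contra fun ha => hn ?_)
    obtain ⟨u, l, hl, e⟩ := hL.exists_inv ha
    have : d = u * (a * d) + l * d := by rw [← mul_assoc, ← add_mul, e, one_mul]
    rw [this]; exact L.add_mem (L.mul_mem_left _ h1) (hld l hl)
  · intro q
    obtain ⟨a, rfl⟩ := L'.mkQ_surjective q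
    obtain ⟨u, l, hl, e⟩ := hL.exists_inv hn
    refine ⟨L'.mkQ (-(a * u)), ?_⟩
    rw [hT]
    refine (Submodule.Quotient.eq L').2 ?_
    have : -(-(a * u) * d) - a = -(a * l) := by
      rw [neg_mul, neg_neg, mul_assoc, eq_sub_of_add_eq e]; noncomm_ring
    rw [this]; exact neg_mem (L.mul_mem_left _ hl)

lemma full {A : Type*} [Ring A] (L : Ideal A) [hL : L.IsMaximal] {g l₀ : A} (h0 : l₀ ∈ L)
    (h1 : l₀ * g ∉ L) (a : A) : ∃ l ∈ L, ∃ l' ∈ L, a = l * g + l' := by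
  obtain ⟨u, l, hl, e⟩ := hL.exists_inv h1
  exact ⟨a * u * l₀, L.mul_mem_left _ h0, a * l, L.mul_mem_left _ hl, by
    rw [mul_assoc, mul_assoc, ← mul_add, e, mul_one]⟩

variable {B : Type*} [CStarAlgebra B]

/-- An approximately local left multiplier defined on a right ideal. -/
structure Loc (s : Sys B) where
  J : Submodule ℂ B
  JT : ∀ f ∈ J, f ∈ s.T
  hJ : ∀ f ∈ J, ∀ b ∈ s.T, f * b ∈ J
  S : B →ₗ[ℂ] B
  C : ℝ
  hC : ∀ f ∈ J, ‖S f‖ ≤ C * ‖f‖
  hS : ∀ f ∈ J, S f ∈ closure ((· * f) '' s.T)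

variable {s : Sys B}

/-- Closed left submodules. -/
def LM (s : Sys B) (N : Submodule ℂ B) : Prop :=
  IsClosed (N : Set B) ∧ ∀ x ∈ s.T, ∀ y ∈ N, x * y ∈ N

instance : IsClosed (s.A : Set B) := s.hA

/-- The closed left module generated by a left ideal. -/
noncomputable def NL (s : Sys B) (L : Ideal s.A) : Submodule ℂ B :=
  (Submodule.span ℂ {y | ∃ x ∈ s.T, ∃ l ∈ L, y = x * l}).topologicalClosure

lemma NL_mem {L : Ideal s.A} {l : s.A} (hl : l ∈ L) {x} (hx : x ∈ s.T) : x * l ∈ NL s L :=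
  subset_closure (Submodule.subset_span ⟨x, hx, l, hl, rfl⟩)

lemma NL_ind {L : Ideal s.A} {N : Submodule ℂ B} (hN : IsClosed (N : Set B))
    (h : ∀ x ∈ s.T, ∀ l ∈ L, x * l ∈ N) : NL s L ≤ N :=
  Submodule.topologicalClosure_minimal _ (Submodule.span_le.2 (by
    rintro _ ⟨x, hx, l, hl, rfl⟩; exact h x hx l hl)) hN

lemma NL_LM (L : Ideal s.A) : LM s (NL s L) :=
  ⟨isClosed_closure, fun x hx _ hy => NL_ind (N := (NL s L).comap (LinearMap.mulLeft ℂ x))
    (isClosed_closure.preimage (continuous_const_mul x))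
    (fun x' hx' l hl => by simpa [← mul_assoc] using NL_mem hl (Sys.T_mul hx hx')) hy⟩

lemma NL_good {L : Ideal s.A} [L.IsMaximal] {x y} (hx : x ∈ s.T) (hy : y ∈ NL s L) :
    ∃ l ∈ L, s.E (star x * y) = l := by
  have hc : IsClosed (Subtype.val '' (L : Set s.A)) :=
    s.hA.isClosedEmbedding_subtypeVal.isClosedMap _ Ideal.IsMaximal.isClosed
  let N : Submodule ℂ B :=
    { carrier := (s.T : Set B) ∩ {y | s.E (star x * y) ∈ Subtype.val '' (L : Set s.A)}
      add_mem' := by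
        rintro a b ⟨ha, l, hl, e⟩ ⟨hb, l', hl', e'⟩
        refine ⟨add_mem ha hb, l + l', L.add_mem hl hl', ?_⟩
        rw [mul_add, Sys.E_add ((Sys.ct hx).star.mul (Sys.ct ha)) ((Sys.ct hx).star.mul (Sys.ct hb)),
          ← e, ← e']; rfl
      zero_mem' := ⟨zero_mem _, 0, L.zero_mem, by simp [Sys.E]⟩
      smul_mem' := by
        rintro r a ⟨ha, l, hl, e⟩
        refine ⟨Submodule.smul_mem _ r ha, r • l, (L.restrictScalars ℂ).smul_mem r hl, ?_⟩
        rw [mul_smul_comm, Sys.E_smul, ← e]; rfl }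
  obtain ⟨-, l, hl, e⟩ := NL_ind (N := N) ((Sys.E_cont (f := fun y => star x * y) (by fun_prop)
    fun a ha => (Sys.ct hx).star.mul (Sys.ct ha)).preimage_isClosed_of_isClosed s.T_closed hc)
    (fun x' hx' l hl => ⟨Sys.T_mul hx' (Sys.AT l.2), ⟨_, Sys.E_mem hx hx'⟩ * l, L.mul_mem_left _ hl,
      by
        have h1 := Sys.E_conj (Sys.Hm.base (one_mem s.A)) (Sys.Hm.base l.2)
          ((Sys.ct hx).star.mul (Sys.ct hx'))
        simp only [star_one, one_mul] at h1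
        rw [← mul_assoc, h1]; rfl⟩) hy
  exact ⟨l, hl, e.symm⟩

lemma sep {y} (hy : y ∈ s.T)
    (h : ∀ L : Ideal s.A, L.IsMaximal → ∃ l ∈ L, s.E (star y * y) = l) : y = 0 := by
  letI := CStarAlgebra.spectralOrder B
  haveI := CStarAlgebra.spectralOrderedRing B
  rcases subsingleton_or_nontrivial B with hB | hB
  · exact Subsingleton.elim _ _
  rw [← CStarRing.star_mul_self_eq_zero_iff]
  refine Sys.E_faith (star_mul_self_nonneg y) ((Sys.ct hy).star.mul (Sys.ct hy)) (by_contra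
    fun hn => ?_)
  have ha : 0 ≤ s.E (star y * y) := Sys.E_nonneg (star_mul_self_nonneg y)
  set a := s.E (star y * y)
  let c : s.A := algebraMap ℂ s.A ‖a‖ - ⟨a, Sys.E_mem hy hy⟩
  have hc : (c : B) = algebraMap ℝ B ‖a‖ - a := by
    simp [c, Algebra.algebraMap_eq_smul_one]
  have hsa : star (c : B) = c := by
    rw [hc, star_sub, ha.isSelfAdjoint.star_eq, Algebra.algebraMap_eq_smul_one]; simp
  by_cases ht : Ideal.span {c} = ⊤
  · obtain ⟨u, hu⟩ := Ideal.mem_span_singleton'.1 ((Ideal.eq_top_iff_one _).1 ht)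
    have h1 : (u : B) * c = 1 := congrArg Subtype.val hu
    have h2 : (c : B) * star (u : B) = 1 := by rw [← hsa, ← star_mul, h1, star_one]
    refine CStarAlgebra.norm_mem_spectrum_of_nonneg ha ?_
    rw [spectrum.mem_resolventSet_iff, ← hc]
    exact ⟨⟨c, u, by rw [left_inv_eq_right_inv h1 h2, h2], h1⟩, rfl⟩
  · obtain ⟨L, hL, hle⟩ := Ideal.exists_le_maximal _ ht
    obtain ⟨l, hl, e⟩ := h L hL
    have h1 : c + l ∈ L := L.add_mem (hle (Ideal.mem_span_singleton_self c)) hl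
    have h2 : c + l = algebraMap ℂ s.A ‖a‖ := by
      rw [show l = ⟨a, Sys.E_mem hy hy⟩ from Subtype.ext e.symm]; simp [c]
    rw [h2] at h1
    exact hL.ne_top (L.eq_top_of_isUnit_mem h1
      ((IsUnit.mk0 _ (by simpa using hn)).map (algebraMap ℂ s.A)))

namespace Loc

variable (m : Loc s)

/-- The defect. -/
noncomputable def Δ (f b : B) : B := m.S f * b - m.S (f * b)

lemma key0 {N} (hN : LM s N) {f} (hf : f ∈ m.J) {b} (h : f * b ∈ N) : m.S f * b ∈ N :=
  closure_minimal (t := {y | y * b ∈ N}) (by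
    rintro _ ⟨x, hx, rfl⟩; simpa [mul_assoc] using hN.2 x hx _ h)
    (hN.1.preimage (continuous_mul_const b)) (m.hS f hf)

lemma key1 {N} (hN : LM s N) {f} (hf : f ∈ m.J) (h : f ∈ N) : m.S f ∈ N := by
  simpa using m.key0 hN hf (b := 1) (by simpa using h)

lemma ST {f} (hf : f ∈ m.J) : m.S f ∈ s.T :=
  m.key1 ⟨s.T_closed, fun _ hx _ hy => Sys.T_mul hx hy⟩ hf (m.JT f hf)

lemma ΔT {f b} (hf : f ∈ m.J) (hb : b ∈ s.T) : m.Δ f b ∈ s.T :=
  sub_mem (Sys.T_mul (m.ST hf) hb) (m.ST (m.hJ f hf b hb))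

lemma Δa {N} (hN : LM s N) {f b} (hf : f ∈ m.J) (hb : b ∈ s.T) (h : b ∈ N) : m.Δ f b ∈ N :=
  sub_mem (hN.2 _ (m.ST hf) _ h) (m.key1 hN (m.hJ f hf b hb) (hN.2 _ (m.JT f hf) _ h))

lemma Δb {N} (hN : LM s N) {f b} (hf : f ∈ m.J) (hb : b ∈ s.T) (h : f ∈ N) : m.Δ f b ∈ N := by
  have hu : ∀ᶠ r : ℂ in 𝓝[≠] 0, m.Δ f b * Ring.inverse (1 - r • b) ∈ N := by
    have hc : Tendsto (fun r : ℂ => ‖r • b‖) (𝓝 0) (𝓝 0) := by
      have : Continuous fun r : ℂ => ‖r • b‖ := by fun_prop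
      simpa using this.tendsto 0
    filter_upwards [self_mem_nhdsWithin,
      (hc.eventually (gt_mem_nhds one_pos)).filter_mono nhdsWithin_le_nhds] with r hr0 hr
    have hU : IsUnit (1 - r • b) := (Units.oneSub _ hr).isUnit
    have h1 := m.key0 hN (m.hJ f hf (1 - r • b)
      (sub_mem (Sys.AT (one_mem _)) (Submodule.smul_mem _ r hb))) (b := Ring.inverse (1 - r • b))
      (by rwa [mul_assoc, Ring.mul_inverse_cancel _ hU, mul_one])
    have h2 := N.smul_mem r⁻¹ (sub_mem h1 (m.key1 hN hf h))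
    convert h2 using 1
    have hr0' : r ≠ 0 := hr0
    rw [eq_inv_smul_iff₀ hr0', eq_sub_iff_add_eq]
    have e1 : m.S f = m.S f * (1 - r • b) * Ring.inverse (1 - r • b) := by
      rw [mul_assoc, Ring.mul_inverse_cancel _ hU, mul_one]
    rw [e1, ← smul_mul_assoc, ← add_mul]
    congr 1
    simp only [Δ, mul_sub, mul_one, mul_smul_comm, map_sub, map_smul, smul_sub]
    abel
  have ht : Tendsto (fun r : ℂ => m.Δ f b * Ring.inverse (1 - r • b)) (𝓝[≠] 0) (𝓝 (m.Δ f b)) := by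
    have h1 : ContinuousAt (fun r : ℂ => 1 - r • b) 0 := by fun_prop
    have h2 := (NormedRing.inverse_continuousAt (1 : Bˣ)).comp_of_eq h1 (by simp)
    simpa using (h2.tendsto.const_mul (m.Δ f b)).mono_left nhdsWithin_le_nhds
  exact hN.1.mem_of_tendsto ht hu

lemma cocyc (f b c : B) : m.Δ f (b * c) = m.Δ f b * c + m.Δ (f * b) c := by
  simp only [Δ, sub_mul, mul_assoc]; abel

lemma Δ_add (f b c : B) : m.Δ f (b + c) = m.Δ f b + m.Δ f c := by
  simp only [Δ, mul_add, map_add]; abel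

lemma Δ_smul (f : B) (r : ℂ) (b : B) : m.Δ f (r • b) = r • m.Δ f b := by
  simp only [Δ, mul_smul_comm, map_smul, smul_sub]

lemma ΔA {f} (hf : f ∈ m.J) {g} (hg : g ∈ s.A) : m.Δ f g = 0 := by
  refine sep (m.ΔT hf (Sys.AT hg)) fun L hL => NL_good (m.ΔT hf (Sys.AT hg)) ?_
  have hN := NL_LM L
  have hl : ∀ l ∈ L, (l : B) ∈ NL s L := fun l hl => by
    simpa using NL_mem hl (Sys.AT (one_mem _))
  lift g to s.A using hg
  by_cases h : ∀ l ∈ L, l * g ∈ L
  · obtain ⟨c, hc⟩ := scalar L h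
    have h1 := m.Δa hN hf (Sys.AT (g - algebraMap ℂ s.A c).2) (hl _ hc)
    have e : (g : B) = (g - algebraMap ℂ s.A c : s.A) + c • (1 : B) := by
      simp [Algebra.algebraMap_eq_smul_one]
    rw [e, Δ_add, Δ_smul]
    simpa [Δ] using h1
  · push Not at h
    obtain ⟨l₀, h0, h1⟩ := h
    obtain ⟨l, hl1, l', hl2, e⟩ := full L h0 h1 (g - g * g)
    have e' : (l' : B) = g - g * g - l * g := by
      rw [eq_sub_iff_add_eq, add_comm]; exact (congrArg Subtype.val e).symm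
    have hf' := m.JT f hf
    have a1 := m.key0 hN (m.hJ f hf _ (Sys.AT (g + l).2)) (b := 1 - g) (by
      have := NL_mem (L.add_mem hl1 hl2) hf'
      convert this using 1
      push_cast; rw [e']; noncomm_ring)
    have a2 := m.key1 hN (m.hJ f hf _ (Sys.AT l.2)) (NL_mem hl1 hf')
    have a3 := m.key0 hN (m.hJ f hf _ (Sys.AT (g + l - 1).2)) (b := g) (by
      have := NL_mem (L.neg_mem hl2) hf'
      convert this using 1
      push_cast; rw [e']; noncomm_ring)
    convert sub_mem (sub_mem a2 a1) a3 using 1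
    push_cast
    simp only [Δ, mul_add, mul_sub, mul_one, map_add, map_sub]
    noncomm_ring

end Loc

end Pool.Agent.H.MP_4840d7_an
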