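import Pool.Agent.H.MP_4840d7_an.B

namespace Pool.Agent.H.MP_4840d7_an

open Set Filter Topology
open scoped InnerProductSpace ComplexOrder

variable {B : Type*} [CStarAlgebra B] {s : Sys B}

/-- A character of the coefficient algebra, extended linearly. -/
structure Ch (s : Sys B) where
  φ : B →ₗ[ℂ] ℂ
  mul : ∀ a ∈ s.A, ∀ b ∈ s.A, φ (a * b) = φ a * φ b
  one : φ 1 = 1
  str : ∀ a ∈ s.A, φ (star a) = star (φ a)
  le : ∀ a ∈ s.A, ‖φ a‖ ≤ ‖a‖

lemma pure {F : Type*} [NormedAddCommGroup F] [InnerProductSpace ℂ F] [CompleteSpace F]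
    {V : F →L[ℂ] F} (hV : ∀ u v, ⟪V u, V v⟫_ℂ = ⟪u, v⟫_ℂ) {y : F}
    (hy : ∀ z : ℂ, ‖z‖ < 1 → y ∈ closure (range fun u => V u - z • u)) (n : ℕ) :
    ∃ u, y = (V ^ n) u := by
  have hn : ∀ u, ‖V u‖ = ‖u‖ := fun u => by
    rw [@norm_eq_sqrt_re_inner ℂ, hV, ← norm_eq_sqrt_re_inner]
  have hp : ∀ (k : ℕ) u, ‖(V ^ k) u‖ = ‖u‖ := fun k u => by
    induction k with
    | zero => simp
    | succ k ih => rw [pow_succ', ContinuousLinearMap.mul_apply, hn, ih]
  have key : ∀ w, (∀ u, ⟪w, V u⟫_ℂ = 0) → ∀ k, ⟪(V ^ k) w, y⟫_ℂ = 0 := by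
    intro w hw
    refine MP_7ad892_an.coef_zero (C := ‖w‖ * ‖y‖)
      (fun k => (norm_inner_le_norm _ _).trans (by rw [hp])) fun z _ hz => ?_
    have hs : ∀ u, Summable fun k => z ^ k * ⟪(V ^ k) w, u⟫_ℂ := fun u =>
      Summable.of_norm_bounded
        ((summable_geometric_of_lt_one (norm_nonneg z) hz).mul_right (‖w‖ * ‖u‖)) fun k => by
        rw [norm_mul, norm_pow]; gcongr; exact (norm_inner_le_norm _ _).trans (by rw [hp])
    let Θ : F →L[ℂ] ℂ := LinearMap.mkContinuous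
      { toFun := fun u => ∑' k, z ^ k * ⟪(V ^ k) w, u⟫_ℂ
        map_add' := fun u v => by
          simp only [inner_add_right, mul_add]; exact (hs u).tsum_add (hs v)
        map_smul' := fun r u => by
          simp only [inner_smul_right, RingHom.id_apply, smul_eq_mul, ← tsum_mul_left]
          congr 1; ext k; ring } ((1 - ‖z‖)⁻¹ * ‖w‖) fun u => by
      rw [mul_assoc]
      exact tsum_of_norm_bounded
        ((hasSum_geometric_of_lt_one (norm_nonneg z) hz).mul_right (‖w‖ * ‖u‖)) fun k => by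
        rw [norm_mul, norm_pow]; gcongr; exact (norm_inner_le_norm _ _).trans (by rw [hp])
    refine closure_minimal (t := {u | Θ u = 0}) ?_ (isClosed_eq Θ.continuous continuous_const)
      (hy z hz)
    rintro _ ⟨u, rfl⟩
    rw [mem_setOf_eq, map_sub, map_smul, sub_eq_zero]
    change ∑' k, z ^ k * ⟪(V ^ k) w, V u⟫_ℂ = z * ∑' k, z ^ k * ⟪(V ^ k) w, u⟫_ℂ
    rw [(hs _).tsum_eq_zero_add, ← tsum_mul_left]
    simp only [pow_zero, ContinuousLinearMap.one_apply, hw, mul_zero, zero_add]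
    congr 1; ext k
    rw [pow_succ' V, ContinuousLinearMap.mul_apply, hV]; ring
  have hpk : ∀ (k : ℕ) u v, ⟪(V ^ k) u, (V ^ k) v⟫_ℂ = ⟪u, v⟫_ℂ := fun k u v => by
    induction k with
    | zero => simp
    | succ k ih => rw [pow_succ', ContinuousLinearMap.mul_apply, ContinuousLinearMap.mul_apply, hV, ih]
  induction n with
  | zero => exact ⟨y, rfl⟩
  | succ n ih =>
    obtain ⟨u, rfl⟩ := ih
    set w := u - V (ContinuousLinearMap.adjoint V u)
    have hw : ∀ v, ⟪w, V v⟫_ℂ = 0 := fun v => by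
      rw [inner_sub_left, hV, ContinuousLinearMap.adjoint_inner_left, sub_self]
    have h1 := key w hw n
    rw [hpk] at h1
    have h2 : ⟪w, w⟫_ℂ = 0 := by
      conv_lhs => rw [show w = u - V (ContinuousLinearMap.adjoint V u) from rfl]
      rw [inner_sub_right, ← show w = u - V (ContinuousLinearMap.adjoint V u) from rfl, h1, hw,
        sub_zero]
    refine ⟨ContinuousLinearMap.adjoint V u, ?_⟩
    rw [pow_succ, ContinuousLinearMap.mul_apply, ← sub_eq_zero.1 (inner_self_eq_zero.1 h2)]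

namespace Ch

variable (c : Ch s)

section Ord

variable [PartialOrder B] [StarOrderedRing B]

lemma pos {a} (ha : a ∈ s.A) (h : 0 ≤ a) : 0 ≤ c.φ a := by
  have h1 : star (c.φ a) = c.φ a := by rw [← c.str a ha, h.isSelfAdjoint.star_eq]
  have hle : a ≤ algebraMap ℝ B ‖a‖ := (CStarAlgebra.norm_le_iff_le_algebraMap a (norm_nonneg _) h).1 le_rfl
  have h2 : ‖algebraMap ℝ B ‖a‖ - a‖ ≤ ‖a‖ :=
    (CStarAlgebra.norm_le_iff_le_algebraMap _ (norm_nonneg _) (sub_nonneg.2 hle)).2 (sub_le_self _ h)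
  have e : algebraMap ℝ B ‖a‖ = (‖a‖ : ℂ) • (1 : B) := by simp [Algebra.algebraMap_eq_smul_one]
  rw [e] at h2
  have h3 := (c.le _ (sub_mem (SMulMemClass.smul_mem _ (one_mem _)) ha)).trans h2
  rw [map_sub, map_smul, c.one, smul_eq_mul, mul_one] at h3
  have h4 := (Complex.re_le_norm _).trans h3
  refine ⟨by simpa using h4, (Complex.conj_eq_iff_im.1 h1).symm⟩

end Ord

/-- The pre-Hilbert space. -/
def Pre (_c : Ch s) : Type _ := s.T

noncomputable instance : AddCommGroup c.Pre := inferInstanceAs (AddCommGroup s.T)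
noncomputable instance : Module ℂ c.Pre := inferInstanceAs (Module ℂ s.T)

/-- The semi-inner product. -/
noncomputable abbrev core : PreInnerProductSpace.Core ℂ c.Pre where
  inner x y := c.φ (s.E (star (x : s.T).1 * (y : s.T).1))
  conj_inner_symm x y := by
    rw [← Complex.star_def, ← c.str _ (Sys.E_mem y.2 x.2), ← Sys.E_star]; simp
  re_inner_nonneg x := by
    letI := CStarAlgebra.spectralOrder B
    haveI := CStarAlgebra.spectralOrderedRing B
    exact (c.pos (Sys.E_mem x.2 x.2) (Sys.E_nonneg (star_mul_self_nonneg _))).1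
  add_left x y z := by
    change c.φ (s.E (star (x.1 + y.1) * z.1)) = _
    rw [star_add, add_mul, Sys.E_add ((Sys.ct x.2).star.mul (Sys.ct z.2))
      ((Sys.ct y.2).star.mul (Sys.ct z.2)), map_add]
  smul_left x y r := by
    change c.φ (s.E (star (r • x.1) * y.1)) = _
    rw [star_smul, smul_mul_assoc, Sys.E_smul, map_smul]; rfl

noncomputable instance : SeminormedAddCommGroup c.Pre :=
  InnerProductSpace.Core.toSeminormedAddCommGroup (c := c.core)

noncomputable instance : InnerProductSpace ℂ c.Pre := InnerProductSpace.ofCore c.core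

lemma exF : ∃ ι : B →ₗ[ℂ] UniformSpace.Completion c.Pre,
    (∀ x ∈ s.T, ∀ y ∈ s.T, ⟪ι x, ι y⟫_ℂ = c.φ (s.E (star x * y))) ∧
      DenseRange (ι ∘ₗ s.T.subtype) := by
  obtain ⟨ι, hι⟩ := LinearMap.exists_extend (p := s.T)
    (UniformSpace.Completion.toComplₗᵢ (𝕜 := ℂ) (E := c.Pre)).toLinearMap
  have h : ∀ x (hx : x ∈ s.T), ι x = UniformSpace.Completion.coe' (α := c.Pre) ⟨x, hx⟩ :=
    fun x hx => LinearMap.congr_fun hι ⟨x, hx⟩
  refine ⟨ι, fun x hx y hy => ?_, by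
    rw [hι]; exact UniformSpace.Completion.denseRange_coe (α := c.Pre)⟩
  rw [h x hx, h y hy, UniformSpace.Completion.inner_coe]; rfl

variable {F : Type*} [NormedAddCommGroup F] [InnerProductSpace ℂ F] [CompleteSpace F]
  {ι : B →ₗ[ℂ] F} (hι : ∀ x ∈ s.T, ∀ y ∈ s.T, ⟪ι x, ι y⟫_ℂ = c.φ (s.E (star x * y)))
include hι

omit [CompleteSpace F]

lemma mul_le {a x} (ha : a ∈ s.T) (hx : x ∈ s.T) : ‖ι (a * x)‖ ≤ ‖a‖ * ‖ι x‖ := by
  letI := CStarAlgebra.spectralOrder B
  haveI := CStarAlgebra.spectralOrderedRing B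
  have hax := Sys.T_mul ha hx
  have h1 : star (a * x) * (a * x) ≤ ((‖a‖ ^ 2 : ℝ) : ℂ) • (star x * x) := by
    have := CStarAlgebra.star_left_conjugate_le_norm_smul (a := x) (b := star a * a)
    rw [CStarRing.norm_star_mul_self, ← sq] at this
    rw [Complex.coe_smul]; simpa only [mul_assoc, star_mul] using this
  have h2 := Sys.E_nonneg (s := s) (sub_nonneg.2 h1)
  rw [Sys.E_sub (((Sys.ct hx).star.mul (Sys.ct hx)).smul _) ((Sys.ct hax).star.mul (Sys.ct hax)),
    Sys.E_smul] at h2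
  have h3 := c.pos (sub_mem (SMulMemClass.smul_mem _ (Sys.E_mem hx hx)) (Sys.E_mem hax hax)) h2
  rw [map_sub, map_smul, ← hι _ hx _ hx, ← hι _ hax _ hax, inner_self_eq_norm_sq_to_K,
    inner_self_eq_norm_sq_to_K] at h3
  have h4 : ‖ι (a * x)‖ ^ 2 ≤ (‖a‖ * ‖ι x‖) ^ 2 := by
    have := h3.1
    simp [← Complex.ofReal_pow] at this
    rwa [mul_pow]
  exact (pow_le_pow_iff_left₀ (norm_nonneg _) (by positivity) two_ne_zero).1 h4

lemma nA {a} (ha : a ∈ s.A) : ‖ι a‖ = ‖c.φ a‖ := by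
  have h := hι a (Sys.AT ha) a (Sys.AT ha)
  rw [Sys.E_Hm (.base ha) (.base ha), if_pos rfl, c.mul _ (star_mem ha) _ ha, c.str _ ha,
    inner_self_eq_norm_sq_to_K, Complex.star_def, Complex.conj_mul'] at h
  exact (pow_left_inj₀ (norm_nonneg _) (norm_nonneg _) two_ne_zero).1
    (Complex.ofReal_injective (by push_cast; exact h))

lemma ι_le {x} (hx : x ∈ s.T) : ‖ι x‖ ≤ ‖x‖ := by
  have := c.mul_le hι hx (Sys.AT (one_mem _))
  rwa [mul_one, c.nA hι (one_mem _), c.one, norm_one, mul_one] at this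

lemma ι_cont : ContinuousOn ι s.T :=
  (LipschitzOnWith.of_dist_le_mul (K := 1) fun a ha b hb => by
    rw [dist_eq_norm, dist_eq_norm, ← map_sub]; simpa using c.ι_le hι (sub_mem ha hb)).continuousOn

lemma N0 : LM s (s.T ⊓ LinearMap.ker ι) :=
  ⟨(c.ι_cont hι).preimage_isClosed_of_isClosed s.T_closed isClosed_singleton, fun x hx y hy =>
    ⟨Sys.T_mul hx hy.1, by
      have := c.mul_le hι hx hy.1
      rw [show ι y = 0 from hy.2] at this
      simpa using this⟩⟩

lemma approx {x} (hx : x ∈ s.X) (h0 : ι x ≠ 0) :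
    ∃ u ∈ s.A, ι (x * u) = ι x ∧ ‖x * u‖ ≤ ‖ι x‖ := by
  letI := CStarAlgebra.spectralOrder B
  haveI := CStarAlgebra.spectralOrderedRing B
  set t := ‖ι x‖ ^ 2 with ht
  have tp : 0 < t := by positivity
  have ha := s.XX x hx x hx
  have hφ : c.φ (star x * x) = t := by
    have h := hι x (Sys.XT hx) x (Sys.XT hx)
    rw [Sys.E_Hm (.one hx) (.one hx), if_pos rfl, inner_self_eq_norm_sq_to_K] at h
    rw [← h, ht]; simp
  set a := star x * x
  have a0 : 0 ≤ a := star_mul_self_nonneg x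
  have hw : (t : ℂ) • (1 : B) + a ∈ s.A := add_mem (SMulMemClass.smul_mem _ (one_mem _)) ha
  have hU : IsUnit ((t : ℂ) • (1 : B) + a) := by
    have := (spectrum.notMem_iff (R := ℝ) (r := -t) (a := a)).1 fun h =>
      absurd (spectrum_nonneg_of_nonneg a0 h) (by linarith)
    convert this.neg using 1
    simp [Algebra.algebraMap_eq_smul_one, add_comm]
  obtain ⟨v, hv⟩ := (StarSubalgebra.coe_isUnit s.A (a := ⟨_, hw⟩)).1 hU
  set w := (t : ℂ) • (1 : B) + a with hwd
  set v' : B := (((v⁻¹ : s.Aˣ) : s.A) : B)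
  have v1 : w * v' = 1 := by
    have := congrArg Subtype.val v.mul_inv; rwa [hv] at this
  have hv' : v' ∈ s.A := Subtype.property _
  have ws : star w = w := by simp [hwd, a0.isSelfAdjoint.star_eq]
  have p1 : c.φ ((2 * t : ℂ) • v') = 1 := by
    have := c.mul _ hw _ hv'
    rw [v1, c.one, hwd, map_add, map_smul, c.one, hφ] at this
    rw [map_smul, this, smul_eq_mul, smul_eq_mul]; ring
  have hu : (2 * t : ℂ) • v' ∈ s.A := SMulMemClass.smul_mem _ hv'
  refine ⟨_, hu, ?_, ?_⟩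
  · have := c.mul_le hι (Sys.XT hx) (Sys.AT (sub_mem hu (one_mem _)))
    rw [c.nA hι (sub_mem hu (one_mem _)), map_sub, p1, c.one, sub_self, norm_zero, mul_zero,
      mul_sub, mul_one, map_sub, norm_le_zero_iff, sub_eq_zero] at this
    exact this
  · have h1 : (4 * t : ℂ) • a ≤ star w * w := by
      rw [← sub_nonneg]
      convert star_mul_self_nonneg ((t : ℂ) • (1 : B) - a) using 1
      simp only [hwd, star_sub, star_add, star_smul, star_one, a0.isSelfAdjoint.star_eq,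
        Complex.star_def, Complex.conj_ofReal, mul_add, add_mul, mul_sub, sub_mul, smul_mul_assoc,
        mul_smul_comm, one_mul, mul_one]
      module
    have h2 := smul_le_smul_of_nonneg_left (star_left_conjugate_le_conjugate h1 v') tp.le
    have h3 : star (x * (2 * t : ℂ) • v') * (x * (2 * t : ℂ) • v') ≤ algebraMap ℝ B t := by
      convert h2 using 1
      · simp only [star_mul, star_smul, mul_smul_comm, smul_mul_assoc, mul_assoc, a,
          Complex.star_def, map_mul, Complex.conj_ofReal, map_ofNat, ← Complex.coe_smul]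
        module
      · rw [← mul_assoc, ← star_mul, mul_assoc, v1]; simp [Algebra.algebraMap_eq_smul_one]
    rw [← CStarAlgebra.norm_le_iff_le_algebraMap _ tp.le (star_mul_self_nonneg _),
      CStarRing.norm_star_mul_self, ← sq] at h3
    exact (pow_le_pow_iff_left₀ (norm_nonneg _) (norm_nonneg _) two_ne_zero).1 h3

lemma surj {ζ : F} (h : ζ ∈ closure (ι '' s.X)) : ∃ x ∈ s.X, ι x = ζ := by
  haveI : CompleteSpace s.X := s.hX.completeSpace_coe
  let f : NormedAddGroupHom s.X F := (ι ∘ₗ s.X.subtype).toAddMonoidHom.mkNormedAddGroupHom 1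
    fun x => by simpa using c.ι_le hι (Sys.XT x.2)
  have h1 : f.SurjectiveOnWith (s.X.map ι).toAddSubgroup 1 := by
    rintro _ ⟨x, hx, rfl⟩
    by_cases h0 : ι x = 0
    · exact ⟨0, by simp [h0], by simp⟩
    · obtain ⟨u, hu, e, hn⟩ := c.approx hι hx h0
      exact ⟨⟨_, s.XA x hx u hu⟩, e, by simpa using hn⟩
  obtain ⟨g, hg, -⟩ := controlled_closure_of_complete one_pos one_pos h1 ζ h
  exact ⟨g, g.2, hg⟩

omit hι in
lemma _root_.Pool.Agent.H.MP_4840d7_an.Sys.Hm.pw {x} (hx : x ∈ s.X) (n : ℕ) : s.Hm n (x ^ n) := by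
  induction n with
  | zero => simpa using Sys.Hm.base (one_mem s.A)
  | succ n ih => rw [pow_succ']; exact .tm hx ih

lemma orth {n x k y} (hx : s.Hm n x) (hy : s.Hm k y) (h : n < k) {z} (hz : z ∈ s.T) :
    ⟪ι x, ι (z * y)⟫_ℂ = 0 := by
  refine Sys.ind (P := fun z => ⟪ι x, ι (z * y)⟫_ℂ = 0) ?_ (by simp)
    (fun _ _ _ _ h h' => by rw [add_mul, map_add, inner_add_right, h, h', add_zero])
    (fun r _ _ h => by rw [smul_mul_assoc, map_smul, inner_smul_right, h, mul_zero])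
    (fun m z h' => ?_) hz
  · exact ((continuousOn_const.inner ((c.ι_cont hι).comp (continuous_mul_const y).continuousOn
      fun a ha => Sys.T_mul ha hy.mem))).preimage_isClosed_of_isClosed s.T_closed
      isClosed_singleton
  · rw [hι _ hx.mem _ (h'.mul hy).mem, Sys.E_Hm hx (h'.mul hy), if_neg (by omega), map_zero]

variable [CompleteSpace F] (hd : DenseRange (ι ∘ₗ s.T.subtype)) (m : Loc s)
include hd

lemma eig {f x} (hf : f ∈ m.J) (hx : x ∈ s.X) (h1 : ‖ι x‖ = 1)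
    (h2 : ∀ l ∈ s.A, c.φ l = 0 → ι (l * x) = 0) : ι (m.Δ f x) = 0 := by
  have hxT := Sys.XT hx
  have hi : ∀ y ∈ s.T, ∀ z ∈ s.T, ⟪ι (y * x), ι (z * x)⟫_ℂ = ⟪ι y, ι z⟫_ℂ := by
    intro y hy z hz
    have hg := Sys.E_mem hy hz
    have hl : s.E (star y * z) - c.φ (s.E (star y * z)) • 1 ∈ s.A :=
      sub_mem hg (SMulMemClass.smul_mem _ (one_mem _))
    have e1 := h2 _ hl (by simp [c.one])
    have e2 := hι x hxT _ (Sys.XT (s.AX _ hg x hx))
    rw [Sys.E_Hm (.one hx) (.one (s.AX _ hg x hx)), if_pos rfl] at e2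
    rw [sub_mul, map_sub, sub_eq_zero, smul_mul_assoc, one_mul, map_smul] at e1
    rw [hι _ (Sys.T_mul hy hxT) _ (Sys.T_mul hz hxT), star_mul, ← mul_assoc, mul_assoc (star x),
      Sys.E_conj (.one hx) (.one hx) ((Sys.ct hy).star.mul (Sys.ct hz)), mul_assoc, ← e2, e1,
      inner_smul_right, inner_self_eq_norm_sq_to_K, h1, hι y hy z hz]
    simp
  let V : F →L[ℂ] F := (ι ∘ₗ LinearMap.mulRight ℂ x ∘ₗ s.T.subtype).extendOfNorm (ι ∘ₗ s.T.subtype)
  have hV : ∀ y ∈ s.T, V (ι y) = ι (y * x) := fun y hy =>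
    LinearMap.extendOfNorm_eq hd ⟨1, fun y => by
      change ‖ι (y * x)‖ ≤ 1 * ‖ι y‖
      rw [one_mul, @norm_eq_sqrt_re_inner ℂ, hi _ y.2 _ y.2, ← norm_eq_sqrt_re_inner]⟩ ⟨y, hy⟩
  have hV2 : ∀ u v, ⟪V u, V v⟫_ℂ = ⟪u, v⟫_ℂ := fun u v =>
    hd.induction_on₂ (p := fun u v => ⟪V u, V v⟫_ℂ = ⟪u, v⟫_ℂ)
      (isClosed_eq (by fun_prop) (by fun_prop)) (fun y z => by
        change ⟪V (ι y), V (ι z)⟫_ℂ = ⟪ι y, ι z⟫_ℂ
        rw [hV _ y.2, hV _ z.2, hi _ y.2 _ z.2]) u v
  have hVn : ∀ n : ℕ, ∀ y ∈ s.T, (V ^ n) (ι y) = ι (y * x ^ n) := by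
    intro n y hy
    induction n with
    | zero => simp
    | succ n ih =>
      rw [pow_succ', ContinuousLinearMap.mul_apply, ih,
        hV _ (Sys.T_mul hy (Sys.Hm.pw hx n).mem), mul_assoc, ← pow_succ]
  have hy : ∀ z : ℂ, ‖z‖ < 1 → ι (m.Δ f x) ∈ closure (range fun u => V u - z • u) := by
    intro z _
    let N : Submodule ℂ B := (s.T.map (LinearMap.mulRight ℂ (x - z • 1))).topologicalClosure
    have hb : x - z • 1 ∈ s.T := sub_mem hxT (Submodule.smul_mem _ z (Sys.AT (one_mem _)))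
    have hN : LM s N := ⟨isClosed_closure, fun y hy w hw =>
      closure_minimal (t := {w | y * w ∈ N}) (by
        rintro _ ⟨w, hw, rfl⟩
        exact subset_closure ⟨y * w, Sys.T_mul hy hw, by simp [mul_assoc]⟩)
        (isClosed_closure.preimage (continuous_const_mul y)) hw⟩
    have h3 := m.Δa hN hf hb (subset_closure ⟨1, Sys.AT (one_mem _), by simp⟩)
    rw [sub_eq_add_neg, ← neg_smul, m.Δ_add, m.Δ_smul, m.ΔA hf (one_mem _), smul_zero,
      add_zero] at h3
    refine (closure_minimal (t := (s.T : Set B) ∩ ι ⁻¹' closure (range fun u => V u - z • u)) ?_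
      ((c.ι_cont hι).preimage_isClosed_of_isClosed s.T_closed isClosed_closure) h3).2
    rintro _ ⟨w, hw, rfl⟩
    exact ⟨Sys.T_mul hw hb, subset_closure ⟨ι w, by simp [hV w hw, mul_sub]⟩⟩
  refine hd.eq_zero_of_inner_right ℂ fun y => ?_
  refine Sys.ind (P := fun y => ⟪ι y, ι (m.Δ f x)⟫_ℂ = 0)
    (((c.ι_cont hι).inner continuousOn_const).preimage_isClosed_of_isClosed s.T_closed
      isClosed_singleton) (by simp)
    (fun _ _ _ _ h h' => by rw [map_add, inner_add_left, h, h', add_zero])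
    (fun r _ _ h => by rw [map_smul, inner_smul_left, h, mul_zero]) (fun n y h => ?_) y.2
  obtain ⟨u, hu⟩ := pure hV2 hy (n + 1)
  rw [hu]
  refine hd.induction_on (p := fun u => ⟪ι y, (V ^ (n + 1)) u⟫_ℂ = 0) u
    (isClosed_eq (by fun_prop) continuous_const) fun w => ?_
  change ⟪ι y, (V ^ (n + 1)) (ι w)⟫_ℂ = 0
  rw [hVn _ _ w.2]
  exact c.orth hι h (Sys.Hm.pw hx _) n.lt_succ_self w.2

lemma caseX {f x} (hf : f ∈ m.J) (hx : x ∈ s.X) : ι (m.Δ f x) = 0 := by
  have hN := c.N0 hι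
  have z0 : ∀ y ∈ s.T, ι y = 0 → ι (m.Δ f y) = 0 := fun y hy h => (m.Δa hN hf hy ⟨hy, h⟩).2
  have hb : ∀ y ∈ s.X, ‖ι (m.Δ f y)‖ ≤ (‖m.S f‖ + |m.C| * ‖f‖) * ‖ι y‖ := by
    intro y hy
    by_cases h0 : ι y = 0
    · simp [z0 y (Sys.XT hy) h0, h0]
    obtain ⟨u, hu, e, hn⟩ := c.approx hι hy h0
    have hyu := Sys.XT (s.XA y hy u hu)
    have h1 := z0 _ (sub_mem (Sys.XT hy) hyu) (by rw [map_sub, e, sub_self])
    rw [show y = (y - y * u) + y * u by abel, m.Δ_add, map_add, h1, zero_add, sub_add_cancel]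
    refine (c.ι_le hι (m.ΔT hf hyu)).trans ((norm_sub_le _ _).trans ?_)
    have h2 := (m.hC _ (m.hJ f hf _ hyu)).trans (mul_le_mul (le_abs_self _) (norm_mul_le _ _)
      (norm_nonneg _) (abs_nonneg _))
    rw [add_mul, mul_assoc]
    gcongr
    · exact (norm_mul_le _ _).trans (by gcongr)
    · exact h2.trans (by gcongr)
  let W0 : Submodule ℂ B := Submodule.span ℂ {y | ∃ l ∈ s.A, c.φ l = 0 ∧ ∃ x ∈ s.X, y = l * x}
  have w1 : ∀ y ∈ W0, y ∈ s.X ∧ ι (m.Δ f y) = 0 := fun y hy => by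
    refine Submodule.span_induction (p := fun y _ => y ∈ s.X ∧ ι (m.Δ f y) = 0) ?_
      ⟨zero_mem _, by simp [Loc.Δ]⟩
      (fun a b _ _ h h' => ⟨add_mem h.1 h'.1, by rw [m.Δ_add, map_add, h.2, h'.2, add_zero]⟩)
      (fun r a _ h => ⟨Submodule.smul_mem _ r h.1, by rw [m.Δ_smul, map_smul, h.2, smul_zero]⟩) hy
    rintro _ ⟨l, hl, h0, y, hy, rfl⟩
    refine ⟨s.AX l hl y hy, ?_⟩
    rw [m.cocyc, m.ΔA hf hl, zero_mul, zero_add]
    exact (m.Δb hN (m.hJ f hf _ (Sys.AT hl)) (Sys.XT hy) (hN.2 f (m.JT f hf) l ⟨Sys.AT hl, by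
      change ι l = 0; rw [← norm_eq_zero, c.nA hι hl, h0, norm_zero]⟩)).2
  let W : Submodule ℂ F := (W0.map ι).topologicalClosure
  haveI : CompleteSpace W := isClosed_closure.completeSpace_coe
  have w2 : ∀ y ∈ s.X, ι y ∈ W → ι (m.Δ f y) = 0 := by
    intro y hy h
    have : ι y ∈ {v | ‖ι (m.Δ f y)‖ ≤ (‖m.S f‖ + |m.C| * ‖f‖) * ‖ι y - v‖} :=
      closure_minimal (by
        rintro _ ⟨w, hw, rfl⟩
        have := hb _ (sub_mem hy (w1 w hw).1)
        rwa [sub_eq_add_neg, ← neg_one_smul ℂ w, m.Δ_add, m.Δ_smul, map_add, map_smul,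
          (w1 w hw).2, smul_zero, add_zero, neg_one_smul, ← sub_eq_add_neg, map_sub] at this)
        (isClosed_le continuous_const (by fun_prop)) h
    simpa using this
  obtain ⟨w, hw, ζ, hζ, e⟩ := W.exists_add_mem_mem_orthogonal (ι x)
  obtain ⟨x', hx', rfl⟩ := c.surj hι (ζ := ζ) (by
    have : ζ ∈ (s.X.map ι).topologicalClosure := by
      rw [show ζ = ι x - w by rw [e]; abel]
      exact sub_mem (subset_closure ⟨x, hx, rfl⟩) (Submodule.topologicalClosure_mono
        (Submodule.map_mono fun y hy => (w1 y hy).1) hw)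
    exact this)
  have h1 := w2 _ (sub_mem hx hx') (by rw [map_sub, e]; simpa using hw)
  rw [show x = (x - x') + x' by abel, m.Δ_add, map_add, h1, zero_add]
  by_cases h0 : ι x' = 0
  · exact z0 _ (Sys.XT hx') h0
  have hn : (‖ι x'‖ : ℂ) ≠ 0 := by simpa using h0
  have h2 := c.eig hι hd m hf (s.X.smul_mem (‖ι x'‖ : ℂ)⁻¹ hx') (by simp [norm_smul, h0])
    fun l hl hl0 => by
      have hlx := s.AX l hl x' hx'
      have hll := mul_mem (star_mem hl) hl
      have h3 := (Submodule.mem_orthogonal' _ _).1 hζ (ι (star l * l * x')) (subset_closure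
        ⟨_, Submodule.subset_span ⟨_, hll, by rw [c.mul _ (star_mem hl) _ hl, hl0, mul_zero],
          x', hx', rfl⟩, rfl⟩)
      rw [hι _ (Sys.XT hx') _ (Sys.XT (s.AX _ hll _ hx')), mul_assoc, ← mul_assoc, ← star_mul,
        ← hι _ (Sys.XT hlx) _ (Sys.XT hlx), inner_self_eq_zero] at h3
      rw [mul_smul_comm, map_smul, h3, smul_zero]
  rw [m.Δ_smul, map_smul] at h2
  exact (smul_eq_zero.1 h2).resolve_left (inv_ne_zero hn)

end Ch

lemma Loc.ΔX (m : Loc s) {f x} (hf : f ∈ m.J) (hx : x ∈ s.X) : m.Δ f x = 0 := by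
  have hT := m.ΔT hf (Sys.XT hx)
  refine sep hT fun L hL => ?_
  by_cases h : ∀ g, ∀ l ∈ L, l * g ∈ L
  · choose χ hχ using fun g => scalar L (h g)
    have uq : ∀ g c, g - algebraMap ℂ s.A c ∈ L → χ g = c := fun g c hc => by_contra fun hn =>
      hL.ne_top (L.eq_top_of_isUnit_mem (L.sub_mem hc (hχ g)) (by
        rw [sub_sub_sub_cancel_left, ← map_sub]
        exact (IsUnit.mk0 _ (sub_ne_zero.2 hn)).map _))
    let χ' : s.A →ₐ[ℂ] ℂ :=
      { toFun := χ
        map_one' := uq _ _ (by simp)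
        map_zero' := uq _ _ (by simp)
        map_add' := fun a b => uq _ _ (by
          convert L.add_mem (hχ a) (hχ b) using 1; rw [map_add]; abel)
        map_mul' := fun a b => uq _ _ (by
          convert L.add_mem (h b _ (hχ a)) (L.mul_mem_left (algebraMap ℂ s.A (χ a)) (hχ b)) using 1
          rw [map_mul]; noncomm_ring)
        commutes' := fun r => uq _ _ (by simp) }
    obtain ⟨φ, hφ⟩ := LinearMap.exists_extend (p := s.A.toSubalgebra.toSubmodule) χ'.toLinearMap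
    have e : ∀ a (ha : a ∈ s.A), φ a = χ' ⟨a, ha⟩ := fun a ha => LinearMap.congr_fun hφ ⟨a, ha⟩
    haveI : Nontrivial s.A := ⟨⟨1, 0, fun h => hL.ne_top (L.eq_top_iff_one.2 (h ▸ L.zero_mem))⟩⟩
    let c : Ch s :=
      { φ := φ
        mul := fun a ha b hb => by rw [e a ha, e b hb, e _ (mul_mem ha hb), ← map_mul]; rfl
        one := by rw [e _ (one_mem _)]; exact map_one χ'
        str := fun a ha => by
          rw [e a ha, e _ (star_mem ha)]
          exact (AlgHomClass.instStarHomClass (F := s.A →ₐ[ℂ] ℂ)).map_star χ' ⟨a, ha⟩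
        le := fun a ha => by rw [e a ha]; exact AlgHom.norm_apply_le_self χ' _ }
    obtain ⟨ι, hι, hd⟩ := c.exF
    have h1 := hι _ hT _ hT
    rw [c.caseX hι hd m hf hx, inner_zero_left] at h1
    refine ⟨⟨_, Sys.E_mem hT hT⟩, ?_, rfl⟩
    have h2 := hχ ⟨_, Sys.E_mem hT hT⟩
    rwa [show χ _ = 0 from (e _ _).symm.trans h1.symm, map_zero, sub_zero] at h2
  · push Not at h
    obtain ⟨g, l₀, h0, h1⟩ := h
    obtain ⟨l, hl, l', hl', e⟩ := full L h0 h1 1
    have e' : x = l * (g * x) + l' * x := by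
      rw [← mul_assoc, ← add_mul]
      exact (one_mul x).symm.trans (congrArg (· * x) (congrArg Subtype.val e))
    refine NL_good hT ?_
    rw [e', m.Δ_add, m.cocyc, m.cocyc f l', m.ΔA hf l.2, m.ΔA hf l'.2, zero_mul, zero_mul,
      zero_add, zero_add]
    exact add_mem (m.Δb (NL_LM L) (m.hJ f hf _ (Sys.AT l.2)) (Sys.XT (s.AX _ g.2 x hx))
      (NL_mem hl (m.JT f hf))) (m.Δb (NL_LM L) (m.hJ f hf _ (Sys.AT l'.2)) (Sys.XT hx)
      (NL_mem hl' (m.JT f hf)))

theorem Loc.main (m : Loc s) {b} (hb : b ∈ s.T) : ∀ f ∈ m.J, m.Δ f b = 0 := by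
  refine Sys.ind (P := fun b => ∀ f ∈ m.J, m.Δ f b = 0) ?_ (by simp [Loc.Δ])
    (fun _ _ _ _ h h' f hf => by rw [m.Δ_add, h f hf, h' f hf, add_zero])
    (fun r _ _ h f hf => by rw [m.Δ_smul, h f hf, smul_zero]) (fun n a h => ?_) hb
  · have : (s.T : Set B) ∩ {b | ∀ f ∈ m.J, m.Δ f b = 0} =
        (s.T : Set B) ∩ ⋂ f ∈ m.J, (s.T : Set B) ∩ (m.Δ f) ⁻¹' {0} := by
      ext; simp +contextual
    rw [this]
    refine s.T_closed.inter (isClosed_biInter fun f hf =>
      ContinuousOn.preimage_isClosed_of_isClosed ?_ s.T_closed isClosed_singleton)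
    refine (continuous_const_mul _).continuousOn.sub
      (LipschitzOnWith.of_dist_le_mul (K := ⟨|m.C| * ‖f‖, by positivity⟩) fun a ha b hb => ?_).continuousOn
    rw [dist_eq_norm, dist_eq_norm, ← map_sub, ← mul_sub]
    exact (m.hC _ (m.hJ f hf _ (sub_mem ha hb))).trans ((mul_le_mul (le_abs_self _)
      (norm_mul_le _ _) (norm_nonneg _) (abs_nonneg _)).trans_eq (mul_assoc _ _ _).symm)
  · induction h with
    | base ha => exact fun f hf => m.ΔA hf ha
    | tm hx _ ih =>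
      intro f hf
      rw [m.cocyc, m.ΔX hf hx, ih _ (m.hJ f hf _ (Sys.XT hx)), zero_mul, add_zero]
    | add _ _ i1 i2 => intro f hf; rw [m.Δ_add, i1 f hf, i2 f hf, add_zero]
    | smul r _ i => intro f hf; rw [m.Δ_smul, i f hf, smul_zero]

end Pool.Agent.H.MP_4840d7_an
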